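import Mathlib
import Pool.Agent.H455.PP
import Pool.Agent.H455.PP_LIFT
import Pool.Agent.H455.PP_SMOOTH
import Pool.Agent.H455.PP_DIM
import Pool.Agent.H455.PP_IRR
import Pool.Agent.H455.PP_TAN
import Pool.Agent.H455.PP_HGT
import Pool.Agent.H455.PP_DIV
import Pool.Agent.H455.PP_DEN
import Pool.Agent.H455.PP_VOS
import Pool.Agent.H455.PP_SEQ
import Pool.Agent.H455.PP_MAIN

set_option autoImplicit false

/-!
# MP_542436_nt: the truncated Vojta inequality on `ℙ¹ × ℙ¹` at points with compressible coordinates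

Let `D = D_1 + ⋯ + D_k` be a divisor with strict normal crossings on `ℙ¹ × ℙ¹` over `ℚ`, `D_i` the zeros
of a bihomogeneous form `F_i` with integral coefficients of an arbitrary bidegree `(q_i, r_i)`, so that
`D` has bidegree `(q, r)`, `q = ∑ q_i`, `r = ∑ r_i`. Fix a finite set `S` of primes and bases `g`, `h`
with prime factors in `S`. A number is called simple if its digits (in the given base) form, read in
one of the two directions, a word with at most `z` Lempel-Ziv phrases, or if a multiple `k x`,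
`1 ≤ k ≤ M`, is a sum of `z` terms `v b ^ l` with integers `|v| ≤ M`. Consider the points
`(α, β)`, `α = (a_0 : a_1)`, `β = (b_0 : b_1)` with coprime integral coordinates, such that

* `a_0, a_1, b_0, b_1` are simple in base `g`;
* the product `R` of the primes `p ∉ S` which divide `∏ F_i(a, b)` (so `log R` is the truncated
  counting function `N^(1)_{D,S}(α, β)`), or the quotient of the part prime to `S` of `∏ F_i(a, b)` by
  `R`, is simple in base `h`;
* no `F_i(a, b)` is divisible by `p ^ (m + 1)` for a prime `p ∉ S`.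

It is shown that `(q - 2) h(α) + (r - 2) h(β) ≤ N^(1)_{D,S}(α, β) + ε (h(α) + h(β)) + C (1 + log M)`
for all these points outside of one proper Zariski closed subset, for every `ε > 0`; the subset and the
constant `C` depend only on the `F_i` and on `S, g, h, z, m, ε`. Nothing is assumed about the cofactors
in the relations between the `F_i(a, b)` and a power of the radical.

The proof: along a generic sequence of counterexamples the coordinates, the radical and the cofactors
`R ^ m / F_i(a, b)` are (after passing to a subsequence, by Newton's approximation and the Subspace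
theorem) sums of few `S`-units with slowly growing coefficients. In the Segre embedding
`x_{st} = a_s b_t` the component `D_i` has the four equations `F_i a_s^(d - q_i) b_t^(d - r_i)` of degree
`d`, and `R ^ m x_{st} ^ d` is the product of one of them with
`a_s ^ (q_i) b_t ^ (r_i) (R ^ m / F_i(a, b))`, so that the library's inequality for smooth varieties and
divisors with several equations, extended to data with slowly growing denominators, applies.
-/

namespace Pool.Agent.Results.MP_542436_nt.CompressibleCoordinates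

open Finset MvPolynomial

/-- `F` is bihomogeneous of bidegree `(q, r)` in the variables `a_0, a_1` and `b_0, b_1`. -/
def Bihomogeneous (q r : ℕ) (F : MvPolynomial (Fin 2 ⊕ Fin 2) ℤ) : Prop :=
  ∀ m ∈ F.support, m (Sum.inl 0) + m (Sum.inl 1) = q ∧ m (Sum.inr 0) + m (Sum.inr 1) = r

/-- The divisor `∏ F_i = 0` of `ℙ¹ × ℙ¹` has strict normal crossings: at every complex point, the
gradients of the `F_i` which vanish there are linearly independent. -/
def NormalCrossings {k : ℕ} (F : Fin k → MvPolynomial (Fin 2 ⊕ Fin 2) ℤ) : Prop :=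
  ∀ a b : Fin 2 → ℂ, a ≠ 0 → b ≠ 0 →
    LinearIndependent ℂ (fun i : {i : Fin k // aeval (Sum.elim a b) (F i) = 0} =>
      fun y : Fin 2 ⊕ Fin 2 => aeval (Sum.elim a b) (pderiv y (F i.1)))

/-- The value `F(a, b)`. -/
noncomputable def val (a b : Fin 2 → ℤ) (F : MvPolynomial (Fin 2 ⊕ Fin 2) ℤ) : ℤ :=
  aeval (Sum.elim a b) F

/-- The products `a_s b_t`. -/
def segre {R : Type} [Mul R] (a b : Fin 2 → R) : Fin 4 → R :=
  ![a 0 * b 0, a 0 * b 1, a 1 * b 0, a 1 * b 1]

/-- The logarithmic height `log max (|a_0|, |a_1|)` of the point `(a_0 : a_1)` with coprime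
coordinates. -/
noncomputable def height (a : Fin 2 → ℤ) : ℝ := Real.log ((max (a 0).natAbs (a 1).natAbs : ℕ) : ℝ)

/-- The product of the primes outside of `S` which divide `n`. -/
def rad (S : Finset ℕ) (n : ℕ) : ℕ := ∏ p ∈ n.primeFactors with p ∉ S, p

/-- The part of `n` prime to the primes of `S`. -/
def part (S : Finset ℕ) (n : ℕ) : ℕ := ∏ p ∈ n.primeFactors with p ∉ S, p ^ n.factorization p

/-- The letters in the positions `n ≤ j < m` of the word `a` form one phrase: it is a single letter,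
or a copy of a block of letters starting `p` positions earlier (which may overlap the phrase). -/
def Phrase {α : Type} (a : ℕ → α) (n m : ℕ) : Prop :=
  m = n + 1 ∨ (n ≤ m ∧ ∃ p, 0 < p ∧ p ≤ n ∧ ∀ j, n ≤ j → j < m → a j = a (j - p))

/-- The word `a 0, …, a (L - 1)` is a concatenation of `z` phrases. -/
def Compressible {α : Type} (a : ℕ → α) (L z : ℕ) : Prop :=
  ∃ c : ℕ → ℕ, c 0 = 0 ∧ c z = L ∧ ∀ i < z, Phrase a (c i) (c (i + 1))

/-- The digit of `|x|` in base `b` at the place `i` (the last digit has the place `0`). -/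
def digit (b : ℕ) (x : ℤ) (i : ℕ) : ℕ := x.natAbs / b ^ i % b

/-- The number of digits of `|x|` in base `b`. -/
def places (b : ℕ) (x : ℤ) : ℕ := (Nat.digits b x.natAbs).length

/-- The digits of `|x|` in base `b`, read from the last to the first one or from the first to the
last one, form a word with `z` phrases. -/
def CompressibleDigits (b z : ℕ) (x : ℤ) : Prop :=
  Compressible (fun j => digit b x j) (places b x) z ∨
    Compressible (fun j => digit b x (places b x - 1 - j)) (places b x) z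

/-- A multiple `k x`, `1 ≤ k ≤ M`, is a sum of `z` terms `v b ^ l` with integers `|v| ≤ M`. -/
def FewPowers (b z : ℕ) (M : ℝ) (x : ℤ) : Prop :=
  ∃ (k : ℕ) (l : Fin z → ℕ) (v : Fin z → ℤ), 0 < k ∧ (k : ℝ) ≤ M ∧ (∀ j, |(v j : ℝ)| ≤ M) ∧
    (k : ℤ) * x = ∑ j, v j * (b : ℤ) ^ l j

/-- The digits in base `b` are compressible, or few powers of `b` suffice. -/
def Simple (b z : ℕ) (M : ℝ) (x : ℤ) : Prop := CompressibleDigits b z x ∨ FewPowers b z M x

theorem seg_eq {R : Type} [Mul R] (a b : Fin 2 → R) :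
    Pool.Agent.H455.PP.seg a b = (segre a b : Fin 4 → R) := by
  funext j
  fin_cases j <;> rfl

theorem exists_seg (z : Fin 4 → ℂ) (hz : z 0 * z 3 = z 1 * z 2) :
    ∃ a b : Fin 2 → ℂ, z = segre a b := by
  by_cases h0 : z 0 = 0
  · by_cases h1 : z 1 = 0
    · refine ⟨![0, 1], ![z 2, z 3], ?_⟩
      funext j
      fin_cases j <;> simp [segre, h0, h1]
    · have h2 : z 2 = 0 := by
        rw [h0, zero_mul] at hz
        exact (mul_eq_zero.1 hz.symm).resolve_left h1
      refine ⟨![z 1, z 3], ![0, 1], ?_⟩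
      funext j
      fin_cases j <;> simp [segre, h0, h2]
  · refine ⟨![z 0, z 2], ![1, z 1 / z 0], ?_⟩
    funext j
    fin_cases j
    · simp [segre]
    · simp [segre, mul_div_cancel₀, h0]
    · simp [segre]
    · simp only [segre]
      have h3 : z 3 = z 2 * (z 1 / z 0) := by
        field_simp
        linear_combination hz
      simpa using h3

theorem main : Pool.Agent.H455.PP.S_MAIN :=
  Pool.Agent.H455.PP_MAIN.main
    (Pool.Agent.H455.PP_SEQ.main
      (Pool.Agent.H455.PP_VOS.main Pool.Agent.H455.PP_DEN.main Pool.Agent.H455.PP_DIM.main)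
      Pool.Agent.H455.PP_TAN.main Pool.Agent.H455.PP_HGT.main Pool.Agent.H455.PP_DIV.main
      Pool.Agent.H455.PP_LIFT.main Pool.Agent.H455.PP_SMOOTH.main)
    Pool.Agent.H455.PP_IRR.main

/-- **Main theorem.** -/
theorem result (S : Finset ℕ) (hS : ∀ p ∈ S, p.Prime) (k : ℕ) (q r : Fin k → ℕ)
    (F : Fin k → MvPolynomial (Fin 2 ⊕ Fin 2) ℤ) (hF : ∀ i, Bihomogeneous (q i) (r i) (F i))
    (hD : NormalCrossings F) (g h : ℕ) (hg : 2 ≤ g) (hgS : g.primeFactors ⊆ S) (hh : 2 ≤ h)
    (hhS : h.primeFactors ⊆ S) (z m : ℕ) (ε : ℝ) (hε : 0 < ε) :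
    ∃ (Φ : MvPolynomial (Fin 4) ℚ) (C : ℝ), (∃ d, Φ.IsHomogeneous d) ∧
      (∃ a b : Fin 2 → ℂ, aeval (segre a b) Φ ≠ 0) ∧
      ∀ (M : ℝ) (a b : Fin 2 → ℤ), 1 ≤ M → IsCoprime (a 0) (a 1) → IsCoprime (b 0) (b 1) →
      (∀ s, Simple g z M (a s)) → (∀ s, Simple g z M (b s)) → (∀ i, val a b (F i) ≠ 0) →
      (Simple h z M (rad S (∏ i, val a b (F i)).natAbs) ∨
        ∃ c : ℤ, c * rad S (∏ i, val a b (F i)).natAbs = part S (∏ i, val a b (F i)).natAbs ∧
          Simple h z M c) →
      (∀ p : ℕ, p.Prime → p ∉ S → ∀ i, ¬ (p : ℤ) ^ (m + 1) ∣ val a b (F i)) →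
      aeval (segre (fun s => (a s : ℚ)) fun s => (b s : ℚ)) Φ ≠ 0 →
      ((∑ i, (q i : ℝ)) - 2) * height a + ((∑ i, (r i : ℝ)) - 2) * height b ≤
        Real.log (rad S (∏ i, val a b (F i)).natAbs) + ε * (height a + height b) +
          C * (1 + Real.log M) := by
  classical
  obtain ⟨Φ1, C1, hΦ1, hC1⟩ := main S hS k q r F hF hD m z True ε hε g h hg hgS hh hhS
  obtain ⟨Φ2, C2, hΦ2, hC2⟩ := main S hS k q r F hF hD m z False ε hε g h hg hgS hh hhS
  obtain ⟨⟨d, hd⟩, w, hwG, hw⟩ := Pool.Agent.H455.TR.Good.mul Pool.Agent.H455.PP_IRR.main hΦ1 hΦ2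
  have hw0 : w 0 * w 3 = w 1 * w 2 := by
    have h1 := hwG 0
    unfold Pool.Agent.H455.PP.Gq at h1
    rw [map_sub, map_mul, map_mul, aeval_X, aeval_X, aeval_X, aeval_X, sub_eq_zero] at h1
    exact h1
  obtain ⟨α, β, hαβ⟩ := exists_seg w hw0
  refine ⟨Φ1 * Φ2, |C1| + |C2|, ⟨d, hd⟩, ⟨α, β, by rw [← hαβ]; exact hw⟩, ?_⟩
  intro M a b hM ha hb hsa hsb hF0 hr hm hΦ
  rw [map_mul] at hΦ
  have hlM : 0 ≤ Real.log M := Real.log_nonneg hM
  have hm' : ∀ p : ℕ, p.Prime → p ∉ S → ∀ i,
      (aeval (Sum.elim a b) (F i)).natAbs.factorization p ≤ m := by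
    intro p hp hpS i
    by_contra hcon
    push Not at hcon
    apply hm p hp hpS i
    have h1 : p ^ (m + 1) ∣ (val a b (F i)).natAbs :=
      (hp.pow_dvd_iff_le_factorization (Int.natAbs_ne_zero.2 (hF0 i))).2 hcon
    have h2 := Int.natCast_dvd.2 h1
    exact_mod_cast h2
  have hsq : Pool.Agent.H455.PP.sq a b = segre (fun s => (a s : ℚ)) fun s => (b s : ℚ) := by
    funext j
    unfold Pool.Agent.H455.PP.sq
    rw [seg_eq]
    fin_cases j <;> simp [segre]
  have hHt : ∀ (alt : Prop) (P : Pool.Agent.H455.PP.Pt S F m alt), P.a = a → P.b = b →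
      P.H ≤ height a + height b := by
    intro alt P hPa hPb
    unfold Pool.Agent.H455.PP.Pt.H height
    rw [hPa, hPb]
    have h1 : ∀ c : Fin 2 → ℤ, IsCoprime (c 0) (c 1) →
        (0 : ℝ) < ((Pool.Agent.H455.PP.mx c : ℕ) : ℝ) := by
      intro c hc
      have h2 : 0 < Pool.Agent.H455.PP.mx c := by
        by_contra h3
        push Not at h3
        have h4 : max (c 0).natAbs (c 1).natAbs = 0 := Nat.le_zero.1 h3
        have h5 : (c 0).natAbs = 0 := Nat.le_zero.1 (h4 ▸ le_max_left _ _)
        have h6 : (c 1).natAbs = 0 := Nat.le_zero.1 (h4 ▸ le_max_right _ _)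
        rw [Int.natAbs_eq_zero] at h5 h6
        rw [h5, h6] at hc
        exact not_isUnit_zero (isCoprime_zero_left.1 hc)
      exact_mod_cast h2
    push_cast
    rw [Real.log_mul (h1 a ha).ne' (h1 b hb).ne']
    unfold Pool.Agent.H455.PP.mx
    push_cast
    exact le_rfl
  have hfin : ∀ (alt : Prop) (P : Pool.Agent.H455.PP.Pt S F m alt) (C : ℝ), P.a = a → P.b = b →
      P.M = M → |C| ≤ |C1| + |C2| →
      ((∑ i, (q i : ℝ)) - 2) * Real.log (Pool.Agent.H455.PP.mx P.a) +
        ((∑ i, (r i : ℝ)) - 2) * Real.log (Pool.Agent.H455.PP.mx P.b) ≤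
          Real.log P.ρ + ε * P.H + C * (1 + Real.log P.M) →
      ((∑ i, (q i : ℝ)) - 2) * height a + ((∑ i, (r i : ℝ)) - 2) * height b ≤
        Real.log (rad S (∏ i, val a b (F i)).natAbs) + ε * (height a + height b) +
          (|C1| + |C2|) * (1 + Real.log M) := by
    intro alt P C hPa hPb hPM hC h1
    have h2 := hHt alt P hPa hPb
    have h3 : (P.ρ : ℝ) = (rad S (∏ i, val a b (F i)).natAbs : ℝ) := by
      unfold Pool.Agent.H455.PP.Pt.ρ
      rw [hPa, hPb]
      rfl
    rw [h3, hPM] at h1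
    have h4 : Real.log (Pool.Agent.H455.PP.mx P.a) = height a := by
      rw [hPa]; rfl
    have h5 : Real.log (Pool.Agent.H455.PP.mx P.b) = height b := by
      rw [hPb]; rfl
    rw [h4, h5] at h1
    have h6 : C * (1 + Real.log M) ≤ (|C1| + |C2|) * (1 + Real.log M) :=
      mul_le_mul_of_nonneg_right ((le_abs_self C).trans hC) (by linarith)
    have h7 : ε * P.H ≤ ε * (height a + height b) := mul_le_mul_of_nonneg_left h2 hε.le
    linarith
  have hbase : ∀ (Z : ℤ), Simple h z M Z →
      ∀ i, Simple (Sum.elim (fun _ => g) (fun _ => h) i) z M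
        ((Sum.elim (Sum.elim a b) fun _ => Z : (Fin 2 ⊕ Fin 2) ⊕ Unit → ℤ) i) := by
    intro Z hZ i
    rcases i with (i | i) | i
    · exact hsa i
    · exact hsb i
    · exact hZ
  rcases hr with hr | ⟨c, hc, hr⟩
  · refine hfin True ⟨a, b, rad S (∏ i, val a b (F i)).natAbs, M, ha, hb, hF0, hm',
      Or.inl ⟨trivial, rfl⟩, hM⟩ C1 rfl rfl rfl ?_ (hC1 _ (fun i => hbase _ hr i) ?_)
    · have := abs_nonneg C2
      linarith
    · have h1 := left_ne_zero_of_mul hΦ
      rw [← hsq] at h1
      exact h1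
  · refine hfin False ⟨a, b, c, M, ha, hb, hF0, hm', Or.inr ⟨not_false, hc⟩, hM⟩ C2 rfl rfl rfl ?_
      (hC2 _ (fun i => hbase _ hr i) ?_)
    · have := abs_nonneg C1
      linarith
    · have h1 := right_ne_zero_of_mul hΦ
      rw [← hsq] at h1
      exact h1

end Pool.Agent.Results.MP_542436_nt.CompressibleCoordinates
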