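import Pool.Graph.R_pool_sql_team_seeded_ab47071d.TH876.PR.Fin2
import Pool.Graph.R_pool_sql_team_seeded_ab47071d.TH876.PR.Pair
import Pool.Graph.R_pool_sql_team_seeded_ab47071d.TH876.PR.Base
import Pool.Graph.R_pool_sql_team_seeded_ab47071d.TH876.PR.Free

/-!
# Points of `ℙ¹ × ℙ¹` over a number field with a small truncated counting function relative to a grid

`K` is any number field, `S` a finite set of primes, `D` the union of the fibres of the first
projection over `q ≥ 3` and of the fibres of the second projection over `r ≥ 3` different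
`K`-rational points; `D` has normal crossings and bidegree `(q, r)`.
-/

set_option autoImplicit false

namespace Pool.Agent.Results.MP_542436_nt.GridCountEveryField

open NumberField IsDedekindDomain

variable {K : Type} [Field K] [NumberField K]

/-- The linear form vanishing at the point `(a 0 : a 1)`. -/
def form (a x : Fin 2 → K) : K := a 0 * x 1 - a 1 * x 0

/-- The local height of `(x 0 : x 1)` relative to the point `(a 0 : a 1)`, at the prime `v`; it is a
nonnegative integer times `log N(v)`. -/
noncomputable def localHeight (v : HeightOneSpectrum (𝓞 K)) (a x : Fin 2 → K) : ℝ :=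
  Real.log (max (FinitePlace.mk v (a 0)) (FinitePlace.mk v (a 1)) *
    max (FinitePlace.mk v (x 0)) (FinitePlace.mk v (x 1)) / FinitePlace.mk v (form a x))

/-- The truncated counting function of the point `(x, y)` relative to the divisor `D` with the
components `{a i} × ℙ¹` and `ℙ¹ × {b j}`: the sum of `log N(v)` over the primes `v` outside `S` where
the local height of `D` is positive. A prime which divides both parts counts only once. -/
noncomputable def counting (S : Set (HeightOneSpectrum (𝓞 K))) {q r : ℕ}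
    (a : Fin q → Fin 2 → K) (b : Fin r → Fin 2 → K) (x y : Fin 2 → K) : ℝ :=
  ∑ᶠ v ∈ {v : HeightOneSpectrum (𝓞 K) | v ∉ S ∧
    0 < ∑ i, localHeight v (a i) x + ∑ j, localHeight v (b j) y},
    Real.log (Ideal.absNorm v.asIdeal : ℝ)

/-- The points of `ℙ¹ × ℙ¹` over `K` off `D` with `exp N^(1)_S(D, P) ≤ X`, both coordinates having
logarithmic height (relative to `K`) at most `H`. -/
def Points (S : Set (HeightOneSpectrum (𝓞 K))) {q r : ℕ}
    (a : Fin q → Fin 2 → K) (b : Fin r → Fin 2 → K) (X H : ℝ) :
    Set (Projectivization K (Fin 2 → K) × Projectivization K (Fin 2 → K)) :=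
  {P | ∃ (x : Fin 2 → K) (hx : x ≠ 0) (y : Fin 2 → K) (hy : y ≠ 0),
    P = (Projectivization.mk K x hx, Projectivization.mk K y hy) ∧
    (∀ i, form (a i) x ≠ 0) ∧ (∀ j, form (b j) y ≠ 0) ∧
    Real.exp (counting S a b x y) ≤ X ∧ Height.logHeight x ≤ H ∧ Height.logHeight y ≤ H}

/-- Let `D` be a grid of `q ≥ 3` and `r ≥ 3` fibres over `K`-rational points, `S` a finite set of
primes of `K` and `ε > 0`. For all `X, H ≥ 1` there are at most `C H X ^ (θ + ε)` points `P` of
`ℙ¹ × ℙ¹` over `K`, off `D`, with coordinates of logarithmic height at most `H`, such that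
`N^(1)_S(D, P) ≤ log X`, where `θ = max (2 / q) (2 / r) (5 / (q + r))`. -/
theorem result (K : Type) [Field K] [NumberField K] (S : Set (HeightOneSpectrum (𝓞 K)))
    (hS : S.Finite) (q r : ℕ) (hq : 3 ≤ q) (hr : 3 ≤ r)
    (a : Fin q → Fin 2 → K) (ha : ∀ i j, i ≠ j → form (a i) (a j) ≠ 0)
    (b : Fin r → Fin 2 → K) (hb : ∀ i j, i ≠ j → form (b i) (b j) ≠ 0)
    (ε : ℝ) (hε : 0 < ε) :
    ∃ C : ℝ, ∀ X H : ℝ, 1 ≤ X → 1 ≤ H → (Points S a b X H).Finite ∧
      ((Points S a b X H).ncard : ℝ) ≤ C * H * X ^
        (max (max (2 / (q : ℝ)) (2 / (r : ℝ))) (5 / ((q : ℝ) + r)) + ε) :=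
  Pool.Agent.TH876.PR.final2 K Pool.Agent.TH876.PR.pairBound
    (fun _ hq' a' ha' T => Pool.Agent.TH876.PR.baseBound K hq' a' ha' T)
    (fun _ hr' b' hb' T hT => Pool.Agent.TH876.PR.freeBound K hr' b' hb' T hT)
    S hS q r hq hr a ha b hb ε hε

end Pool.Agent.Results.MP_542436_nt.GridCountEveryField
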