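import Pool.Agent.H461.Grid.Top
import Pool.Agent.H461.Low.Low

/-!
# The truncated inequality of Vojta on the product of two lines: the exact exponent of the number
of exceptions for grids through conjugate points

`X` is the product of two projective lines over `ℚ` and `D` the sum of the fibres over the zeros
of a binary form `F` of degree `q` of the first projection and over the zeros of a binary form `G`
of degree `r` of the second projection. The forms have integral coefficients and no multiple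
factors, but their zeros need not be rational. `D` has normal crossings and bidegree `(q, r)`.
-/

set_option autoImplicit false

namespace Pool.Agent.Results.MP_542436_nt.GridExceptionsExact

open Finset Polynomial

/-- Normalised coprime integer coordinates: each point `[x₀ : x₁]` of the projective line over `ℚ`
has exactly one such pair. -/
def Coord (x : ℤ × ℤ) : Prop := IsCoprime x.1 x.2 ∧ (0 < x.2 ∨ x.2 = 0 ∧ 0 < x.1)

/-- The height `max (|x₀|, |x₁|)`; its logarithm is `h(x)`. -/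
def height (x : ℤ × ℤ) : ℕ := max x.1.natAbs x.2.natAbs

/-- The value at `x` of the binary form `∑_j f_j X₀^j X₁^(q-j)` of degree `q`. -/
def form (f : ℤ[X]) (q : ℕ) (x : ℤ × ℤ) : ℤ :=
  ∑ j ∈ range (q + 1), f.coeff j * x.1 ^ j * x.2 ^ (q - j)

/-- The polynomial `f` defines a binary form of degree `q` without multiple factors. -/
def IsForm (f : ℤ[X]) (q : ℕ) : Prop :=
  Squarefree (f.map (Int.castRingHom ℚ)) ∧ f.natDegree ≤ q ∧ q ≤ f.natDegree + 1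

/-- All zeros of the form have degree at most three over `ℚ`. -/
def Cubic (f : ℤ[X]) : Prop :=
  ∀ p : ℚ[X], Irreducible p → p ∣ f.map (Int.castRingHom ℚ) → p.natDegree ≤ 3

/-- The sum over the primes `p ∉ S` of `min (log p, v_p(n) log p)`. -/
noncomputable def trunc (S : Finset ℕ) (n : ℤ) : ℝ :=
  ∑ p ∈ n.natAbs.primeFactors \ S, Real.log (p : ℝ)

/-- The points `P = (x, y)` of `ℙ¹ × ℙ¹` over `ℚ` off the divisor `D` with the equation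
`F(x) G(y) = 0`, of heights `H(x) ≤ B₁`, `H(y) ≤ B₂`, with
`N^(1)_D(P) < (q - κ) h(x) + (r - κ) h(y) + c`. The local height of `D` at `p` is
`v_p(F(x) G(y)) log p`, and the primes of `S` are not counted. -/
def Exc (f g : ℤ[X]) (q r : ℕ) (S : Finset ℕ) (κ c B₁ B₂ : ℝ) : Set ((ℤ × ℤ) × (ℤ × ℤ)) :=
  {P | Coord P.1 ∧ Coord P.2 ∧ form f q P.1 * form g r P.2 ≠ 0 ∧
    (height P.1 : ℝ) ≤ B₁ ∧ (height P.2 : ℝ) ≤ B₂ ∧
    trunc S (form f q P.1 * form g r P.2) <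
      ((q : ℝ) - κ) * Real.log (height P.1) + ((r : ℝ) - κ) * Real.log (height P.2) + c}

/-- The points `x` of the line close to the rational number `t`: the real distance is less than
`η`, and the coordinates are congruent modulo `Q`. -/
def close (t : ℚ) (Q : ℕ) (η : ℝ) : Set (ℤ × ℤ) :=
  {x | 0 < x.2 ∧ |(x.1 : ℝ) / x.2 - t| < η ∧ (Q : ℤ) ∣ x.1 - t.num ∧ (Q : ℤ) ∣ x.2 - t.den}

open Pool.Agent.W4.CF Pool.Agent.W4.VC Pool.Agent.H461.Grid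

theorem height_eq (x : ℤ × ℤ) : height x = ht x := rfl

theorem form_eq (f : ℤ[X]) (q : ℕ) (x : ℤ × ℤ) : form f q x = hom f q x.1 x.2 := rfl

/-- the product of the primes in `S` -/
theorem exists_m (S : Finset ℕ) : ∃ m : ℕ, 1 ≤ m ∧ ∀ n : ℤ, n ≠ 0 →
    Real.log (radp m n.natAbs : ℝ) = trunc S n := by
  classical
  refine ⟨∏ p ∈ S.filter Nat.Prime, p, ?_, fun n hn => ?_⟩
  · exact Nat.pos_of_ne_zero (prod_ne_zero_iff.mpr fun p hp => (mem_filter.mp hp).2.ne_zero)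
  · unfold radp trunc
    have hS : n.natAbs.primeFactors.filter (fun p => ¬ p ∣ ∏ p ∈ S.filter Nat.Prime, p) =
        n.natAbs.primeFactors \ S := by
      ext p
      rw [mem_filter, mem_sdiff]
      refine and_congr_right fun hp => ?_
      have hpp := Nat.prime_of_mem_primeFactors hp
      have h1 : p ∣ ∏ p ∈ S.filter Nat.Prime, p ↔ p ∈ S := by
        constructor
        · intro h
          obtain ⟨l, hl, hpl⟩ := (Prime.dvd_finsetProd_iff hpp.prime _).mp h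
          rw [mem_filter] at hl
          rw [(Nat.prime_dvd_prime_iff_eq hpp hl.2).mp hpl]
          exact hl.1
        · intro h
          exact dvd_prod_of_mem (fun p => p) (mem_filter.mpr ⟨h, hpp⟩)
      rw [h1]
    rw [hS]
    push_cast
    rw [Real.log_prod]
    intro p hp
    rw [mem_sdiff] at hp
    exact_mod_cast (Nat.prime_of_mem_primeFactors hp.1).ne_zero

theorem trunc_mul_le (S : Finset ℕ) (a b : ℤ) (ha : a ≠ 0) (hb : b ≠ 0) :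
    trunc S (a * b) ≤ ∑ p ∈ a.natAbs.primeFactors, Real.log (p : ℝ) +
      ∑ p ∈ b.natAbs.primeFactors, Real.log (p : ℝ) := by
  classical
  have h0 : ∀ p : ℕ, 0 ≤ Real.log (p : ℝ) := fun p => Real.log_natCast_nonneg p
  unfold trunc
  rw [Int.natAbs_mul, Nat.primeFactors_mul (Int.natAbs_ne_zero.mpr ha)
    (Int.natAbs_ne_zero.mpr hb), ← sum_union_inter]
  refine (sum_le_sum_of_subset_of_nonneg sdiff_subset fun p _ _ => h0 p).trans ?_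
  exact le_add_of_nonneg_right (sum_nonneg fun p _ => h0 p)

theorem exc_finite (f g : ℤ[X]) (q r : ℕ) (S : Finset ℕ) (κ c B₁ B₂ : ℝ) :
    (Exc f g q r S κ c B₁ B₂).Finite := by
  obtain ⟨B, hB⟩ : ∃ B : ℤ, B = max ⌈B₁⌉ ⌈B₂⌉ := ⟨_, rfl⟩
  refine ((Finset.finite_toSet ((Finset.Icc (-B) B ×ˢ Finset.Icc (-B) B) ×ˢ
    (Finset.Icc (-B) B ×ˢ Finset.Icc (-B) B)))).subset ?_
  rintro P ⟨-, -, -, h1, h2, -⟩
  have key : ∀ x : ℤ × ℤ, (height x : ℝ) ≤ (B : ℝ) →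
      x ∈ Finset.Icc (-B) B ×ˢ Finset.Icc (-B) B := by
    intro x hx
    rw [height_eq, ht_cast] at hx
    have b1 := (le_max_left _ _).trans hx
    have b2 := (le_max_right _ _).trans hx
    rw [Finset.mem_product, Finset.mem_Icc, Finset.mem_Icc]
    exact ⟨abs_le.mp (by exact_mod_cast b1), abs_le.mp (by exact_mod_cast b2)⟩
  have c1 : B₁ ≤ (B : ℝ) := by
    rw [hB]
    exact (Int.le_ceil _).trans (by exact_mod_cast le_max_left _ _)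
  have c2 : B₂ ≤ (B : ℝ) := by
    rw [hB]
    exact (Int.le_ceil _).trans (by exact_mod_cast le_max_right _ _)
  rw [Finset.mem_coe, Finset.mem_product]
  exact ⟨key _ (h1.trans c1), key _ (h2.trans c2)⟩

/-- one factor of the lower bound -/
theorem lower_one (f : ℤ[X]) (q : ℕ) (hq : 3 ≤ q) (hf : IsForm f q) (t : ℚ)
    (ht : form f q (t.num, (t.den : ℤ)) ≠ 0) (Q : ℕ) (hQ : 1 ≤ Q) (η : ℝ) (hη : 0 < η) (κ : ℝ)
    (hκ0 : 0 ≤ κ) (hκ2 : κ < 2) (A : ℝ) (hA : 0 < A) :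
    ∃ c B₀ : ℝ, 0 < c ∧ ∀ B : ℝ, B₀ ≤ B → ∃ S : Finset (ℤ × ℤ), c * B ^ (2 - κ) ≤ (S.card : ℝ) ∧
      ∀ p ∈ S, Coord p ∧ p ∈ close t Q η ∧ (height p : ℝ) ≤ B ∧ form f q p ≠ 0 ∧
        ∑ l ∈ (form f q p).natAbs.primeFactors, Real.log (l : ℝ) ≤
          Real.log A + ((q : ℝ) - κ) * Real.log (height p) := by
  have hhom : ∀ x y : ℤ, Pool.Agent.Y670.RD.fv q f x y = hom f q x y := fun x y => rfl
  have h0 : aeval (t : ℝ) f ≠ 0 := by
    intro h1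
    apply ht
    have h3 : (Pool.Agent.Y670.RD.fv q f t.num (t.den : ℤ) : ℝ) =
        (((t.den : ℤ)) : ℝ) ^ q * aeval ((t.num : ℝ) / ((t.den : ℤ) : ℝ)) f :=
      Pool.Agent.Y670.RD.fv_eq hf.2.1 (by exact_mod_cast t.den_nz)
    have h4 : (t : ℝ) = (t.num : ℝ) / ((t.den : ℤ) : ℝ) := by
      push_cast
      exact Rat.cast_def t
    rw [← h4, h1, mul_zero, hhom] at h3
    exact_mod_cast h3
  obtain ⟨c, B₀, hc, hlow⟩ := Pool.Agent.H461.Low.low f q hf.1 (by have := hf.2.2; omega) hf.2.1 t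
    h0 Q hQ η hη κ hκ0 hκ2 A hA
  refine ⟨c, B₀, hc, fun B hB => ?_⟩
  obtain ⟨S, hSc, hSp⟩ := hlow B hB
  refine ⟨S, hSc, fun p hp => ?_⟩
  obtain ⟨h1, h2, h3, h4, h5, h6, h7, h8⟩ := hSp p hp
  have hm1 := ht_pos h1
  have hm0 : (0 : ℝ) < height p := by exact_mod_cast hm1
  refine ⟨⟨h1, Or.inl h2⟩, ⟨h2, h3, h4, h5⟩, ?_, h7, ?_⟩
  · rw [height_eq, ht_cast]
    exact h6
  · rw [← ht_cast, ← height_eq] at h8
    have g4 : 0 < ∏ l ∈ (Pool.Agent.Y670.RD.fv q f p.1 p.2).natAbs.primeFactors, (l : ℝ) :=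
      Finset.prod_pos fun l hl => by
        exact_mod_cast (Nat.prime_of_mem_primeFactors hl).pos
    have g5 := Real.log_le_log g4 h8
    rw [Real.log_mul hA.ne' (by positivity), Real.log_rpow hm0, Real.log_prod (fun l hl => by
      exact_mod_cast (Nat.prime_of_mem_primeFactors hl).ne_zero)] at g5
    exact g5

/-- **Theorem.** Let `F`, `G` be binary forms of degrees `q, r ≥ 3` with integral coefficients and
without multiple factors, `D` the divisor `F(x) G(y) = 0` on `ℙ¹ × ℙ¹`, `S` a finite set of primes,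
`0 ≤ κ ≤ 2` and `c` real. Let `V(B₁, B₂)` be the number of the rational points `P = (x, y)` off `D`
with `H(x) ≤ B₁`, `H(y) ≤ B₂` and `N^(1)_D(P) < (q - κ) h(x) + (r - κ) h(y) + c`.

(1) Let `κ < 2`. Close to every point `(t, u)` with rational `t`, `u` off `D`, at the real place
and at finitely many primes, there are at least `c₁ (B₁ B₂) ^ (2 - κ)` of these points, for all
large `B₁`, `B₂`.

(2) If the zeros of `F` and `G` have degree at most three over `ℚ`, then for every `δ > 0` and all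
`B₁, B₂ ≥ 1`
`V(B₁, B₂) ≤ C (B₁ B₂) ^ δ ((B₁ B₂) ^ (2 - κ) + B₁ ^ 2 B₂ ^ (4 / 3) + B₁ ^ (4 / 3) B₂ ^ 2)`.

(3) Hence in this case `V(B₁, B₂) = (B₁ B₂) ^ (2 - κ + o(1))` for `κ < 2` and
`B₁, B₂ → ∞` with `(B₁ B₂) ^ κ ≤ min(B₁, B₂) ^ (2 / 3)`; for `B₁ = B₂` this condition says that
`κ ≤ 1 / 3`. -/
theorem result (f g : ℤ[X]) (q r : ℕ) (hq : 3 ≤ q) (hr : 3 ≤ r) (hf : IsForm f q)
    (hg : IsForm g r) (S : Finset ℕ) (κ c : ℝ) (hκ : 0 ≤ κ) (hκ2 : κ ≤ 2) :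
    (κ < 2 → ∀ t u : ℚ, form f q (t.num, (t.den : ℤ)) ≠ 0 → form g r (u.num, (u.den : ℤ)) ≠ 0 →
      ∀ (Q : ℕ) (η : ℝ), 1 ≤ Q → 0 < η → ∃ c₁ : ℝ, 0 < c₁ ∧ ∃ B₀ : ℝ, ∀ B₁ B₂ : ℝ, B₀ ≤ B₁ →
        B₀ ≤ B₂ → c₁ * (B₁ * B₂) ^ (2 - κ) ≤
          ((Exc f g q r S κ c B₁ B₂ ∩ close t Q η ×ˢ close u Q η).ncard : ℝ)) ∧
    (Cubic f → Cubic g → ∀ δ : ℝ, 0 < δ → ∃ C : ℝ, ∀ B₁ B₂ : ℝ, 1 ≤ B₁ → 1 ≤ B₂ →
      (Exc f g q r S κ c B₁ B₂).Finite ∧ ((Exc f g q r S κ c B₁ B₂).ncard : ℝ) ≤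
        C * (B₁ * B₂) ^ δ * ((B₁ * B₂) ^ (2 - κ) + B₁ ^ 2 * B₂ ^ ((4 : ℝ) / 3) +
          B₁ ^ ((4 : ℝ) / 3) * B₂ ^ 2)) ∧
    (Cubic f → Cubic g → κ < 2 → ∀ δ : ℝ, 0 < δ → ∃ B₀ : ℝ, ∀ B₁ B₂ : ℝ, B₀ ≤ B₁ → B₀ ≤ B₂ →
      (B₁ * B₂) ^ κ ≤ min B₁ B₂ ^ ((2 : ℝ) / 3) →
      (B₁ * B₂) ^ (2 - κ - δ) ≤ ((Exc f g q r S κ c B₁ B₂).ncard : ℝ) ∧
      ((Exc f g q r S κ c B₁ B₂).ncard : ℝ) ≤ (B₁ * B₂) ^ (2 - κ + δ)) := by
  classical
  have hq3 : (3 : ℝ) ≤ q := by exact_mod_cast hq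
  have hr3 : (3 : ℝ) ≤ r := by exact_mod_cast hr
  have hlower : κ < 2 → ∀ t u : ℚ, form f q (t.num, (t.den : ℤ)) ≠ 0 →
      form g r (u.num, (u.den : ℤ)) ≠ 0 →
      ∀ (Q : ℕ) (η : ℝ), 1 ≤ Q → 0 < η → ∃ c₁ : ℝ, 0 < c₁ ∧ ∃ B₀ : ℝ, ∀ B₁ B₂ : ℝ, B₀ ≤ B₁ →
        B₀ ≤ B₂ → c₁ * (B₁ * B₂) ^ (2 - κ) ≤
          ((Exc f g q r S κ c B₁ B₂ ∩ close t Q η ×ˢ close u Q η).ncard : ℝ) := by
    intro hκ2' t u ht hu Q η hQ hη
    obtain ⟨c₁, B₁', hc₁, h1⟩ := lower_one f q hq hf t ht Q hQ η hη κ hκ hκ2'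
      (Real.exp ((c - 1) / 2)) (Real.exp_pos _)
    obtain ⟨c₂, B₂', hc₂, h2⟩ := lower_one g r hr hg u hu Q hQ η hη κ hκ hκ2'
      (Real.exp ((c - 1) / 2)) (Real.exp_pos _)
    refine ⟨c₁ * c₂, by positivity, max 1 (max B₁' B₂'), fun B₁ B₂ hB₁ hB₂ => ?_⟩
    have hB₁1 : 1 ≤ B₁ := (le_max_left _ _).trans hB₁
    have hB₂1 : 1 ≤ B₂ := (le_max_left _ _).trans hB₂
    obtain ⟨S₁, hS₁c, hS₁⟩ := h1 B₁ ((le_max_left _ _).trans ((le_max_right _ _).trans hB₁))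
    obtain ⟨S₂, hS₂c, hS₂⟩ := h2 B₂ ((le_max_right _ _).trans ((le_max_right _ _).trans hB₂))
    have hsub : ((S₁ ×ˢ S₂ : Finset ((ℤ × ℤ) × (ℤ × ℤ))) : Set ((ℤ × ℤ) × (ℤ × ℤ))) ⊆
        Exc f g q r S κ c B₁ B₂ ∩ close t Q η ×ˢ close u Q η := by
      intro P hP
      rw [mem_coe, mem_product] at hP
      obtain ⟨k1, k2, k3, k4, k5⟩ := hS₁ P.1 hP.1
      obtain ⟨l1, l2, l3, l4, l5⟩ := hS₂ P.2 hP.2
      refine ⟨⟨k1, l1, mul_ne_zero k4 l4, k3, l3, ?_⟩, ⟨k2, l2⟩⟩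
      have e := trunc_mul_le S _ _ k4 l4
      rw [Real.log_exp] at k5 l5
      linarith
    have hcard : ((S₁ ×ˢ S₂).card : ℝ) ≤
        ((Exc f g q r S κ c B₁ B₂ ∩ close t Q η ×ˢ close u Q η).ncard : ℝ) := by
      rw [← Set.ncard_coe_finset]
      exact_mod_cast Set.ncard_le_ncard hsub ((exc_finite f g q r S κ c B₁ B₂).inter_of_left _)
    refine le_trans ?_ hcard
    rw [card_product, Nat.cast_mul, Real.mul_rpow (by linarith) (by linarith)]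
    calc c₁ * c₂ * (B₁ ^ (2 - κ) * B₂ ^ (2 - κ)) = (c₁ * B₁ ^ (2 - κ)) * (c₂ * B₂ ^ (2 - κ)) := by
          ring
      _ ≤ (S₁.card : ℝ) * S₂.card := mul_le_mul hS₁c hS₂c (by positivity) (Nat.cast_nonneg _)
  have hupper : Cubic f → Cubic g → ∀ δ : ℝ, 0 < δ → ∃ C : ℝ, ∀ B₁ B₂ : ℝ, 1 ≤ B₁ → 1 ≤ B₂ →
      (Exc f g q r S κ c B₁ B₂).Finite ∧ ((Exc f g q r S κ c B₁ B₂).ncard : ℝ) ≤
        C * (B₁ * B₂) ^ δ * ((B₁ * B₂) ^ (2 - κ) + B₁ ^ 2 * B₂ ^ ((4 : ℝ) / 3) +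
          B₁ ^ ((4 : ℝ) / 3) * B₂ ^ 2) := by
    intro h3 h3' δ hδ
    obtain ⟨m, hm, hrad⟩ := exists_m S
    obtain ⟨C, -, hbox⟩ := box f q (by omega) hf h3 g r (by omega) hg h3' κ hκ2 (by linarith)
      (by linarith) m hm (Real.exp c) (Real.exp_pos _) δ hδ
    refine ⟨C, fun B₁ B₂ hB₁ hB₂ => ⟨exc_finite f g q r S κ c B₁ B₂, ?_⟩⟩
    rw [Set.ncard_eq_toFinset_card _ (exc_finite f g q r S κ c B₁ B₂)]
    apply hbox B₁ B₂ hB₁ hB₂
    intro P hP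
    rw [Set.Finite.mem_toFinset] at hP
    obtain ⟨k1, k2, k3, k4, k5, k6⟩ := hP
    have n1 := left_ne_zero_of_mul k3
    have n2 := right_ne_zero_of_mul k3
    refine ⟨k1.1, k2.1, k4, k5, n1, n2, ?_⟩
    have p1 : (0 : ℝ) < ht P.1 := by exact_mod_cast ht_pos k1.1
    have p2 : (0 : ℝ) < ht P.2 := by exact_mod_cast ht_pos k2.1
    have hr0 : (0 : ℝ) < radp m (form f q P.1 * form g r P.2).natAbs := by
      exact_mod_cast Pool.Agent.W4.CF.radp_pos _ _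
    have e1 := hrad _ k3
    rw [← e1, height_eq, height_eq] at k6
    have e2 : ((q : ℝ) - κ) * Real.log (ht P.1) + ((r : ℝ) - κ) * Real.log (ht P.2) + c =
        Real.log (Real.exp c * ((ht P.1 : ℝ) ^ ((q : ℝ) - κ) * (ht P.2 : ℝ) ^ ((r : ℝ) - κ))) := by
      rw [Real.log_mul (Real.exp_pos c).ne' (by positivity),
        Real.log_mul (by positivity) (by positivity), Real.log_rpow p1, Real.log_rpow p2,
        Real.log_exp]
      ring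
    rw [e2] at k6
    exact ((Real.log_lt_log_iff hr0 (by positivity)).mp k6).le
  refine ⟨hlower, hupper, ?_⟩
  intro h3 h3' hκ2' δ hδ
  obtain ⟨C, hC⟩ := hupper h3 h3' (δ / 2) (by positivity)
  -- points off the divisor
  have hoff : ∀ (f : ℤ[X]) (q : ℕ), IsForm f q → ∃ t : ℚ, form f q (t.num, (t.den : ℤ)) ≠ 0 := by
    intro f q hf
    have hf0 : f ≠ 0 := by
      rintro rfl
      have := hf.1.ne_zero
      rw [Polynomial.map_zero] at this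
      exact this rfl
    obtain ⟨n, hn⟩ : ∃ n : ℤ, n ∉ f.roots.toFinset := Infinite.exists_notMem_finset _
    refine ⟨(n : ℚ), fun h => hn ?_⟩
    rw [Multiset.mem_toFinset, mem_roots hf0, IsRoot.def, eval_eq_sum_range' (n := q + 1)
      (by have := hf.2.1; omega)]
    have e1 : ((n : ℚ).num, ((n : ℚ).den : ℤ)) = (n, 1) := by
      rw [Rat.num_intCast, Rat.den_intCast]
      rfl
    rw [e1] at h
    unfold form at h
    simpa using h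
  obtain ⟨t, ht⟩ := hoff f q hf
  obtain ⟨u, hu⟩ := hoff g r hg
  obtain ⟨c₁, hc₁, B₀, hlow⟩ := hlower hκ2' t u ht hu 1 1 le_rfl one_pos
  obtain ⟨B₃, hB₃⟩ : ∃ B₃ : ℝ, B₃ = (1 / c₁) ^ (1 / δ) := ⟨_, rfl⟩
  obtain ⟨B₄, hB₄⟩ : ∃ B₄ : ℝ, B₄ = (3 * (|C| + 1)) ^ (2 / δ) := ⟨_, rfl⟩
  refine ⟨max 1 (max B₀ (max B₃ B₄)), fun B₁ B₂ hB₁ hB₂ hcond => ?_⟩
  have hB₁1 : 1 ≤ B₁ := (le_max_left _ _).trans hB₁
  have hB₂1 : 1 ≤ B₂ := (le_max_left _ _).trans hB₂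
  have hB₁0 : 0 < B₁ := by linarith
  have hB₂0 : 0 < B₂ := by linarith
  have hB1 : 1 ≤ B₁ * B₂ := one_le_mul_of_one_le_of_one_le hB₁1 hB₂1
  have hB0 : 0 < B₁ * B₂ := by linarith
  have hBB : B₁ ≤ B₁ * B₂ := le_mul_of_one_le_right hB₁0.le hB₂1
  have hBm : max B₀ (max B₃ B₄) ≤ B₁ := (le_max_right _ _).trans hB₁
  have hBm' : max B₀ (max B₃ B₄) ≤ B₂ := (le_max_right _ _).trans hB₂
  constructor
  · have h4 := hlow B₁ B₂ ((le_max_left _ _).trans hBm) ((le_max_left _ _).trans hBm')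
    have h5 : ((Exc f g q r S κ c B₁ B₂ ∩ close t 1 1 ×ˢ close u 1 1).ncard : ℝ) ≤
        ((Exc f g q r S κ c B₁ B₂).ncard : ℝ) := by
      exact_mod_cast Set.ncard_le_ncard Set.inter_subset_left (exc_finite f g q r S κ c B₁ B₂)
    refine le_trans ?_ (h4.trans h5)
    have h6 : 1 / c₁ ≤ (B₁ * B₂) ^ δ := by
      have h7 : B₃ ≤ B₁ * B₂ := ((le_max_left _ _).trans ((le_max_right _ _).trans hBm)).trans hBB
      calc 1 / c₁ = B₃ ^ δ := by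
            rw [hB₃, ← Real.rpow_mul (by positivity), one_div_mul_cancel hδ.ne', Real.rpow_one]
        _ ≤ (B₁ * B₂) ^ δ := Real.rpow_le_rpow (by rw [hB₃]; positivity) h7 hδ.le
    have h8 : 1 ≤ c₁ * (B₁ * B₂) ^ δ := by
      rw [div_le_iff₀ hc₁] at h6
      linarith
    have h9 : (B₁ * B₂) ^ (2 - κ) = (B₁ * B₂) ^ (2 - κ - δ) * (B₁ * B₂) ^ δ := by
      rw [← Real.rpow_add hB0]
      congr 1
      ring
    rw [h9]
    have h10 : 0 < (B₁ * B₂) ^ (2 - κ - δ) := by positivity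
    calc (B₁ * B₂) ^ (2 - κ - δ) = (B₁ * B₂) ^ (2 - κ - δ) * 1 := (mul_one _).symm
      _ ≤ (B₁ * B₂) ^ (2 - κ - δ) * (c₁ * (B₁ * B₂) ^ δ) :=
          mul_le_mul_of_nonneg_left h8 h10.le
      _ = _ := by ring
  · obtain ⟨-, h4⟩ := hC B₁ B₂ hB₁1 hB₂1
    refine h4.trans ?_
    have hmin1 : min B₁ B₂ ^ ((2 : ℝ) / 3) ≤ B₁ ^ ((2 : ℝ) / 3) :=
      Real.rpow_le_rpow (le_min hB₁0.le hB₂0.le) (min_le_left _ _) (by norm_num)
    have hmin2 : min B₁ B₂ ^ ((2 : ℝ) / 3) ≤ B₂ ^ ((2 : ℝ) / 3) :=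
      Real.rpow_le_rpow (le_min hB₁0.le hB₂0.le) (min_le_right _ _) (by norm_num)
    obtain ⟨W, hW⟩ : ∃ W : ℝ, W = (B₁ * B₂) ^ (2 - κ) := ⟨_, rfl⟩
    have hW0 : 0 < W := by rw [hW]; positivity
    have hWκ : W * (B₁ * B₂) ^ κ = B₁ ^ 2 * B₂ ^ 2 := by
      rw [hW, ← Real.rpow_add hB0, sub_add_cancel, ← mul_pow, ← Real.rpow_natCast]
      norm_num
    have e43 : ∀ B : ℝ, 0 < B → B ^ ((4 : ℝ) / 3) * B ^ ((2 : ℝ) / 3) = B ^ 2 := by
      intro B hB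
      rw [← Real.rpow_add hB, ← Real.rpow_natCast]
      norm_num
    have t1 : B₁ ^ 2 * B₂ ^ ((4 : ℝ) / 3) ≤ W := by
      have h5 : B₁ ^ 2 * B₂ ^ ((4 : ℝ) / 3) * B₂ ^ ((2 : ℝ) / 3) ≤ W * B₂ ^ ((2 : ℝ) / 3) := by
        calc B₁ ^ 2 * B₂ ^ ((4 : ℝ) / 3) * B₂ ^ ((2 : ℝ) / 3) = B₁ ^ 2 * B₂ ^ 2 := by
              rw [mul_assoc, e43 B₂ hB₂0]
          _ = W * (B₁ * B₂) ^ κ := hWκ.symm
          _ ≤ W * B₂ ^ ((2 : ℝ) / 3) := mul_le_mul_of_nonneg_left (hcond.trans hmin2) hW0.le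
      exact le_of_mul_le_mul_right h5 (by positivity)
    have t2 : B₁ ^ ((4 : ℝ) / 3) * B₂ ^ 2 ≤ W := by
      have h5 : B₁ ^ ((4 : ℝ) / 3) * B₂ ^ 2 * B₁ ^ ((2 : ℝ) / 3) ≤ W * B₁ ^ ((2 : ℝ) / 3) := by
        calc B₁ ^ ((4 : ℝ) / 3) * B₂ ^ 2 * B₁ ^ ((2 : ℝ) / 3) =
              (B₁ ^ ((4 : ℝ) / 3) * B₁ ^ ((2 : ℝ) / 3)) * B₂ ^ 2 := by ring
          _ = W * (B₁ * B₂) ^ κ := by rw [e43 B₁ hB₁0, hWκ]
          _ ≤ W * B₁ ^ ((2 : ℝ) / 3) := mul_le_mul_of_nonneg_left (hcond.trans hmin1) hW0.le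
      exact le_of_mul_le_mul_right h5 (by positivity)
    have h6 : 3 * (|C| + 1) ≤ (B₁ * B₂) ^ (δ / 2) := by
      have h7 : B₄ ≤ B₁ * B₂ := ((le_max_right _ _).trans ((le_max_right _ _).trans hBm)).trans hBB
      calc 3 * (|C| + 1) = B₄ ^ (δ / 2) := by
            rw [hB₄, ← Real.rpow_mul (by positivity)]
            have : 2 / δ * (δ / 2) = 1 := by field_simp
            rw [this, Real.rpow_one]
        _ ≤ (B₁ * B₂) ^ (δ / 2) := Real.rpow_le_rpow (by rw [hB₄]; positivity) h7 (by positivity)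
    rw [← hW]
    have hE0 : 0 < (B₁ * B₂) ^ (δ / 2) := by positivity
    have hCabs : C ≤ |C| + 1 := by linarith [le_abs_self C]
    calc C * (B₁ * B₂) ^ (δ / 2) * (W + B₁ ^ 2 * B₂ ^ ((4 : ℝ) / 3) +
          B₁ ^ ((4 : ℝ) / 3) * B₂ ^ 2) ≤ (|C| + 1) * (B₁ * B₂) ^ (δ / 2) * (W + W + W) := by
          refine mul_le_mul (mul_le_mul_of_nonneg_right hCabs hE0.le) (by linarith) (by positivity)
            (by positivity)
      _ = (3 * (|C| + 1)) * ((B₁ * B₂) ^ (δ / 2) * W) := by ring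
      _ ≤ (B₁ * B₂) ^ (δ / 2) * ((B₁ * B₂) ^ (δ / 2) * W) :=
          mul_le_mul_of_nonneg_right h6 (by positivity)
      _ = (B₁ * B₂) ^ (2 - κ + δ) := by
          rw [hW, ← Real.rpow_add hB0, ← Real.rpow_add hB0]
          congr 1
          ring

end Pool.Agent.Results.MP_542436_nt.GridExceptionsExact
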